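import Pool.Agent.H.MP_68ef1b_nt.A

namespace Pool.Agent.Results.MP_68ef1b_nt.No

open Polynomial Pool.Agent.H.MP_68ef1b_nt

/-- the height of `f`: the largest absolute value of a coefficient -/
def H (f : ℤ[X]) : ℕ := f.support.sup fun i => (f.coeff i).natAbs

/-- `m = B(n)`: `m` is the maximum of `H(f)` over the divisors `f` of `x^n - 1` in `ℤ[x]` -/
def IsB (n m : ℕ) : Prop := IsGreatest {h | ∃ f : ℤ[X], f ∣ X ^ n - 1 ∧ H f = h} m

theorem aux (n m i : ℕ) (h1 : ∀ f : ℤ[X], f ∣ X ^ n - 1 → ∀ i, |f.coeff i| ≤ m)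
    (h2 : ∃ f : ℤ[X], f ∣ X ^ n - 1 ∧ f.coeff i = m) (hm : 0 < m) : IsB n m := by
  have up : ∀ f : ℤ[X], f ∣ X ^ n - 1 → H f ≤ m := fun f hf =>
    Finset.sup_le fun j _ => by have := h1 f hf j; rw [Int.abs_eq_natAbs] at this; omega
  obtain ⟨f, hf, hi⟩ := h2
  refine ⟨⟨f, hf, le_antisymm (up f hf) ?_⟩, ?_⟩
  · have := Finset.le_sup (f := fun i => (f.coeff i).natAbs)
      (mem_support_iff.2 (show f.coeff i ≠ 0 by omega))
    simp only [hi, Int.natAbs_natCast] at this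
    exact this
  · rintro _ ⟨g, hg, rfl⟩
    exact up g hg

theorem result : ∃ p q r b m : ℕ, p.Prime ∧ q.Prime ∧ r.Prime ∧ p < q ∧ q < r ∧ 2 ≤ b ∧
    IsB (p * q * r ^ b) m ∧ ¬ p ∣ m :=
  ⟨5, 7, 13, 2, 12822, by norm_num, by norm_num, by norm_num, by norm_num, by norm_num, le_rfl,
    aux 5915 12822 597 fin.1 fin.2 (by norm_num), by norm_num⟩

end Pool.Agent.Results.MP_68ef1b_nt.No
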